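import Pool.Agent.W2helper58.IR.Stm

/-!
# The attack is a uniform polynomial-time algorithm (piece ATT)
-/

set_option autoImplicit false

namespace Pool.Agent.W2helper54.IR

open Pool.Agent.NPC Pool.Agent.H620R2.Gauge Pool.Agent.H622R2 Pool.Agent.H591R3.PHG
  Pool.Agent.W2helper57.LC Pool.Agent.W2helper95.LC Pool.Agent.W2helper58.IR

open Pool.Agent.W2helper58.GU (acc)

/-- first component -/
theorem p1 {α : Type} [TEnc α] {f : α → List Bool} (hf : Poly f) :
    Poly (fun a => (unpair (f a)).1) := Poly.fst (poly_unpair.comp hf)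

/-- second component -/
theorem p2 {α : Type} [TEnc α] {f : α → List Bool} (hf : Poly f) :
    Poly (fun a => (unpair (f a)).2) := Poly.snd (poly_unpair.comp hf)

/-- the condition for a further question -/
def cnd (kp : Polynomial ℕ) (y : List Bool) : Prop :=
  (unpair (unpair y).2).2.length < kp.eval (unpair y).1.length

instance (kp : Polynomial ℕ) : DecidablePred (cnd kp) := fun _ => Nat.decLt _ _

theorem poly_cnd (kp : Polynomial ℕ) {α : Type} [TEnc α] {f : α → List Bool} (hf : Poly f) :
    Poly (fun a => decide (cnd kp (f a))) :=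
  Poly.decide_lt (Poly.length (p2 (p2 hf))) ((UPoly.length (p1 hf)).eval kp).toPoly

/-- one step is uniform -/
theorem ufp_stp {F1 : Oracle → List Bool → List Bool} (h1 : UFP F1) (kp : Polynomial ℕ) :
    UFP (stp F1 kp) := by
  have hask : UFP (fun A x => [A x]) :=
    UFP.ask (q := fun x => x) Poly.id (H := fun p => [p.2])
      (Poly.cons (Poly.snd Poly.id) (NPC.Poly.const []))
  have f1 : Poly (fun p : List Bool × List Bool × List Bool => p.1) := Poly.fst Poly.id
  have f2 : Poly (fun p : List Bool × List Bool × List Bool => p.2.2) :=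
    Poly.snd (Poly.snd Poly.id)
  have hψ : Poly (fun p : List Bool × List Bool × List Bool =>
      if cnd kp p.1 then pairBits (unpair p.1).1 (pairBits (unpair (unpair p.1).2).1
        (p.2.2 ++ (unpair (unpair p.1).2).2)) else p.1) :=
    Poly.ite (poly_cnd kp f1) (poly_pairBits (p1 f1) (poly_pairBits (p1 (p2 f1))
      (Poly.append f2 (p2 (p2 f1))))) f1
  have h := s_SEQ F1 (fun A x => [A x]) (fun p => p.2) _ h1 hask (Poly.snd Poly.id) hψ
  refine (congrArg UFP (funext fun A => funext fun y => ?_)).mp h
  simp only [stp, cnd, List.singleton_append]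

/-- the start of the loop -/
def ini (z : List Bool) : List Bool :=
  pairBits (unpair z).1 (pairBits (unpair (unpair z).2).1 [])

theorem poly_ini : Poly ini :=
  poly_pairBits (p1 Poly.id) (poly_pairBits (p1 (p2 Poly.id)) (NPC.Poly.const []))

/-- the states -/
theorem states (F1 : Oracle → List Bool → List Bool) (kp : Polynomial ℕ) (A : Oracle)
    (z : List Bool) (i : ℕ) : ∃ a : List Bool,
    a.length = min i (kp.eval (unpair z).1.length) ∧
    (stp F1 kp A)^[i] (ini z) = pairBits (unpair z).1 (pairBits (unpair (unpair z).2).1 a) := by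
  induction i with
  | zero => exact ⟨[], by simp, rfl⟩
  | succ i ih =>
    obtain ⟨a, ha, h⟩ := ih
    rw [Function.iterate_succ_apply', h]
    by_cases hc : a.length < kp.eval (unpair z).1.length
    · refine ⟨A (F1 A (pairBits (unpair z).1 (pairBits (unpair (unpair z).2).1 a))) :: a,
        ?_, ?_⟩
      · rw [List.length_cons]
        omega
      · unfold stp
        simp only [unpair_pairBits]
        rw [if_pos hc]
    · refine ⟨a, by omega, ?_⟩
      unfold stp
      simp only [unpair_pairBits]
      rw [if_neg hc]

/-- further steps change nothing -/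
theorem stable (F1 : Oracle → List Bool → List Bool) (kp : Polynomial ℕ) (A : Oracle)
    (z : List Bool) {m : ℕ} (hm : kp.eval (unpair z).1.length ≤ m) :
    (stp F1 kp A)^[m] (ini z) = fin F1 kp A z := by
  obtain ⟨j, rfl⟩ := Nat.exists_eq_add_of_le hm
  rw [add_comm, Function.iterate_add_apply]
  obtain ⟨a, ha, h⟩ := states F1 kp A z (kp.eval (unpair z).1.length)
  have h2 : fin F1 kp A z =
      pairBits (unpair z).1 (pairBits (unpair (unpair z).2).1 a) := h
  rw [h, h2]
  apply Function.iterate_fixed
  unfold stp
  simp only [unpair_pairBits]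
  rw [if_neg (by omega)]

theorem ufp_fin {F1 : Oracle → List Bool → List Bool} (h1 : UFP F1) (kp : Polynomial ℕ) :
    UFP (fin F1 kp) := by
  have h := loop (stp F1 kp) ini kp (Polynomial.C 4 * Polynomial.X + kp + 2) (ufp_stp h1 kp)
    poly_ini (by
      intro A z i hi
      obtain ⟨a, ha, h⟩ := states F1 kp A z i
      rw [h, A2.length_pairBits, A2.length_pairBits]
      have e1 := LangSig.length_unpair z
      have e2 := LangSig.length_unpair (unpair z).2
      have e3 := eval_mono kp (show (unpair z).1.length ≤ z.length by omega)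
      simp only [Polynomial.eval_add, Polynomial.eval_mul, Polynomial.eval_C, Polynomial.eval_X,
        Polynomial.eval_ofNat]
      omega)
  refine (congrArg UFP (funext fun A => funext fun z => ?_)).mp h
  refine stable F1 kp A z (eval_mono kp ?_)
  have e1 := LangSig.length_unpair z
  omega

/-- the changed oracle -/
theorem ufp_chg {F3 : Oracle → List Bool → List Bool} (h3 : UFP F3) :
    UFP (fun A y => [pch (F3 A y) (A (unpair y).2)]) := by
  have hask : UFP (fun A x => [A x]) :=
    UFP.ask (q := fun x => x) Poly.id (H := fun p => [p.2])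
      (Poly.cons (Poly.snd Poly.id) (NPC.Poly.const []))
  have f1 : Poly (fun p : List Bool × List Bool × List Bool => p.2.1) :=
    Poly.fst (Poly.snd Poly.id)
  have f2 : Poly (fun p : List Bool × List Bool × List Bool => p.2.2) :=
    Poly.snd (Poly.snd Poly.id)
  have hψ : Poly (fun p : List Bool × List Bool × List Bool =>
      if p.2.1 = [] then p.2.2 else [p.2.1.head?.getD false]) :=
    Poly.ite (Poly.decide_eq f1 (NPC.Poly.const [])) f2
      (Poly.cons (Poly.head?_getD f1 false) (NPC.Poly.const []))
  have h := s_SEQ F3 (fun A x => [A x]) (fun p => (unpair p.1).2) _ h3 hask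
    (p2 (Poly.fst Poly.id)) hψ
  refine (congrArg UFP (funext fun A => funext fun y => ?_)).mp h
  simp only
  rcases F3 A y with _ | ⟨b, l⟩
  · simp [pch]
  · simp [pch]

/-- Piece ATT. -/
theorem p_att : P_att := by
  intro F1 F2 F3 kp MD h1 h2 h3
  -- the final state
  have hfin : UFP (fun A x => fin F1 kp A (unpair x).2) :=
    (ufp_fin h1 kp).precomp (p2 Poly.id)
  -- state and input of the decryption
  have g1 : Poly (fun p : List Bool × List Bool × List Bool => p.1) := Poly.fst Poly.id
  have g2 : Poly (fun p : List Bool × List Bool × List Bool => p.2.1) :=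
    Poly.fst (Poly.snd Poly.id)
  have g3 : Poly (fun p : List Bool × List Bool × List Bool => p.2.2) :=
    Poly.snd (Poly.snd Poly.id)
  have hV := s_SEQ (fun A x => fin F1 kp A (unpair x).2) F2 (fun p => p.2)
    (fun p => pairBits p.2.1 (pairBits (unpair p.1).1 (pairBits (unpair (unpair p.1).2).1
      (pairBits p.2.2 (unpair (unpair (unpair p.1).2).2).2)))) hfin h2 (Poly.snd Poly.id)
    (poly_pairBits g2 (poly_pairBits (p1 g1) (poly_pairBits (p1 (p2 g1))
      (poly_pairBits g3 (p2 (p2 (p2 g1)))))))
  -- the decryption with the changed oracle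
  have hW := sub s_SEQ s_TT (acc MD) _ (s_ACC MD) (ufp_chg h3)
  have h := s_SEQ _ _ (fun p => p.2) (fun p => p.2.2) hV hW (Poly.snd Poly.id) g3
  refine (congrArg UFP (funext fun A => funext fun x => ?_)).mp h
  simp only [att, unpair_pairBits]
  congr 1
  funext q
  simp

end Pool.Agent.W2helper54.IR
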